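import Pool.Agent.X319.EF.Asym

set_option autoImplicit false

open Pool.Agent.W432.PC Finset

/-!
# Explicit primes at which the `p`-curvature is nonzero, for all systems with given exponents

The other results of the library for this problem say that, for the systems `f' = (b/t + c/(t-1)) f`
whose exponents satisfy some condition, the `p`-curvatures are nonzero for all sufficiently large
primes in some residue class.  The bound for the primes depends there on the system (on the
accessory parameters and on the ring of definition).  Here it is explicit and depends only on the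
exponents, and the residue class is the same for all systems with the given exponents; the ring of
definition need not be of finite type.

Proof.  (1) If the `p`-curvature vanishes at one closed point of residue characteristic `p`, larger
than twice the sum of the numerators of the exponents, Cartier descent gives a frame of horizontal
sections; the degrees of the entries give the inequality for all integral shifts with sum one (in
the library this was proved for primes tending to infinity, in `pos_of_not`; here the rounding is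
controlled at one prime, in `no_violation`).  Real shifts are rounded to rational ones.
(2) If all the inequalities hold for all `a` prime to `N`, the exponents of a twist without
cohomology are symmetric (character sums and `L(1, ψ) ≠ 0`, as in the result `TwistSymmetry` for
`MP_ba03d2`); this step concerns only the exponents, so some class `a` violates an inequality, and
(1) applies to it.
-/

namespace Pool.Agent.Results.MP_5e5ff1_ag.EffectivePrimes

universe u v

/-- For every domain `R` of characteristic zero and all matrices `b`, `c` over `R` such that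
`f' = (b/t + c/(t-1)) f` has the exponents `lam 0 l` at `0` (the eigenvalues of `b`), `lam 1 l` at `1`
(the eigenvalues of `c`) and `lam 2 l` at infinity (the eigenvalues of `-(b + c)`), and for every
prime number `p > 2 N ∑ |lam i l|` with `a p = -1` modulo `N`, the `p`-curvature is nonzero at every
closed point of `Spec R` of residue characteristic `p`. -/
def NonzeroForAll {r : ℕ} (lam : Fin 3 → Fin r → ℚ) (N : ℕ) (a : ℤ) : Prop :=
  ∀ (R : Type u) [CommRing R] [IsDomain R] [CharZero R] (b c : Matrix (Fin r) (Fin r) R),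
    HasExponents b (lam 0) → HasExponents c (lam 1) → HasExponents (b + c) (fun l => -lam 2 l) →
    ∀ p : ℕ, p.Prime → 2 * (N : ℚ) * ∑ i, ∑ l, |lam i l| < p → (N : ℤ) ∣ a * p + 1 →
    ∀ (𝔪 : Ideal R) [𝔪.IsMaximal], (p : R) ∈ 𝔪 → ¬ PCurvZeroAt ![0, 1] ![b, c] 𝔪

/-- The number of the pairs `(i, l)` for which `lam i l - c i` is not an integer. -/
def W {r : ℕ} (lam : Fin 3 → Fin r → ℚ) (c : Fin 3 → ℚ) : ℕ :=
  (univ.filter fun i : Fin 3 × Fin r => (lam i.1 i.2 - c i.1).den ≠ 1).card

/-- The number of the pairs `(i, l)` for which `lam i l - c i` is congruent to `t` modulo `ℤ`. -/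
def mult {r : ℕ} (lam : Fin 3 → Fin r → ℚ) (c : Fin 3 → ℚ) (t : ℚ) : ℕ :=
  (univ.filter fun i : Fin 3 × Fin r => (lam i.1 i.2 - c i.1 - t).den = 1).card

/-- `M` is a prime number, or `2 r ∑ 1 / (q - 1) < 1`, the sum over the prime divisors `q` of
`M ≥ 1`. -/
def Rough (r M : ℕ) : Prop :=
  M.Prime ∨ 0 < M ∧ ((2 * r : ℕ) : ℝ) * ∑ q ∈ M.primeFactors, (1 : ℝ) / ((q : ℝ) - 1) < 1

lemma isUnit_sub {R : Type u} [CommRing R] : ∀ i j : Fin 2, i ≠ j →
    IsUnit ((![0, 1] : Fin 2 → R) i - ![0, 1] j) := by
  intro i j hij
  fin_cases i <;> fin_cases j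
  · exact absurd rfl hij
  · simp
  · simp
  · exact absurd rfl hij

lemma nonzero_of_not {r : ℕ} (lam : Fin 3 → Fin r → ℚ) (N : ℕ) (hN : 0 < N)
    (E : Fin 3 → Fin r → ℤ) (hE : ∀ i l, (N : ℚ) * lam i l = E i l) (a : ℤ)
    (h : ¬ Pool.Agent.X319.EF.Ineqs N E a) : NonzeroForAll.{u} lam N a := by
  intro R _ _ _ b c hb hc hbc p hp hpB hap 𝔪 _ hpm hpc
  apply h
  have hNq : (0 : ℚ) < N := by exact_mod_cast hN
  have hl : ∀ i l, lam i l = (E i l : ℚ) / N := fun i l => by rw [← hE]; field_simp
  let τ : Option (Fin 2) ≃ Fin 3 := (finSuccEquivLast (n := 2)).symm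
  have hτs : ∀ j, τ (some j) = j.castSucc := fun j => by simp [τ]
  have hτn : τ none = 2 := by simp only [τ, finSuccEquivLast_symm_none]; rfl
  have key := Pool.Agent.X319.EF.ineqs_of_pt (![0, 1] : Fin 2 → R) isUnit_sub ![b, c] N hN
    (fun o => E (τ o)) (fun j => ?_) ?_ a p hp ?_ hap 𝔪 hpm hpc
  · intro x hx
    have h1 := key (fun o => x (τ o)) (by rw [← hx]; exact Equiv.sum_comp τ x)
    have e1 : ∑ o, ∑ l, (a * E (τ o) l - x (τ o)) % (N : ℤ) =
        ∑ i, ∑ l, (a * E i l - x i) % (N : ℤ) :=
      Equiv.sum_comp τ (fun i => ∑ l, (a * E i l - x i) % (N : ℤ))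
    have e2 : ∑ o, ∑ l, (-(a * E (τ o) l) - x (τ o)) % (N : ℤ) =
        ∑ i, ∑ l, (-(a * E i l) - x i) % (N : ℤ) :=
      Equiv.sum_comp τ (fun i => ∑ l, (-(a * E i l) - x i) % (N : ℤ))
    rw [e1, e2] at h1
    exact h1
  · rw [hτs]
    have e0 : ∀ i, (fun l => (E i l : ℚ) / N) = lam i := fun i => by
      funext l
      exact (hl i l).symm
    rw [e0]
    fin_cases j
    · exact hb
    · exact hc
  · rw [hτn]
    have h2 : ∑ j, (![b, c] : Fin 2 → Matrix (Fin r) (Fin r) R) j = b + c := by
      simp [Fin.sum_univ_two]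
    rw [h2]
    convert hbc using 2 with l
    rw [hl]; ring
  · have e3 : ∑ o, ∑ l, |E (τ o) l| = ∑ i, ∑ l, |E i l| :=
      Equiv.sum_comp τ (fun i => ∑ l, |E i l|)
    rw [e3]
    have e4 : ((2 * ∑ i, ∑ l, |E i l| : ℤ) : ℚ) = 2 * (N : ℚ) * ∑ i, ∑ l, |lam i l| := by
      push_cast
      rw [mul_assoc, mul_sum (a := (N : ℚ))]
      congr 1
      refine sum_congr rfl fun i _ => ?_
      rw [mul_sum]
      refine sum_congr rfl fun l _ => ?_
      rw [← hE, abs_mul, abs_of_pos hNq]
    have e5 : ((2 * ∑ i, ∑ l, |E i l| : ℤ) : ℚ) < ((p : ℤ) : ℚ) := by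
      rw [e4]
      exact_mod_cast hpB
    exact_mod_cast e5

/-- Let `lam i l`, `l < r`, be rational numbers (`i = 0, 1, 2`) with a common denominator `N`.

(1) Suppose that for an integer `a` and real numbers `y 0, y 1, y 2` with positive sum `s` the sum of
the fractional parts of the `a (lam i l) - y i`, or of the `-a (lam i l) - y i`, over all `i` and `l`
is less than `r (1 - s)`. Then for every system `f' = (b/t + c/(t-1)) f` of rank `r` with the exponents
`lam 0 l`, `lam 1 l`, `lam 2 l` at `0, 1, ∞` over any domain `R` of characteristic zero, and every prime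
number `p > 2 N ∑ |lam i l|` with `a p = -1` modulo `N`, the `p`-curvature is nonzero at every closed
point of `Spec R` of residue characteristic `p`.

(2) Let `c 0, c 1, c 2` be rational numbers with integral sum and denominators dividing `N`, and
suppose that no exponent at the point number `i₀` is congruent to `c i₀` modulo `ℤ`. Let the number
`W` of the pairs `(i, l)` for which `lam i l - c i` is not an integer be at most `2 r`, and let the
`lam i l - c i` have a common denominator `M` which is prime or satisfies `2 r ∑_{q ∣ M} 1 / (q - 1) < 1`.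
If for some `t` the numbers of the `lam i l - c i` congruent to `t` and to `-t` modulo `ℤ` are
different, then there is an integer `a` prime to `N`, depending only on the exponents, such that the
conclusion of (1) holds: for all systems with these exponents, at all closed points of all residue
characteristics `p > 2 N ∑ |lam i l|` with `a p = -1` modulo `N`, the `p`-curvature is nonzero. So it is
enough to look at `φ(N)` explicit primes, one for each class: for one of them, the same for all the
systems with the given exponents (all values of the accessory parameters, all rings), the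
`p`-curvature is nonzero at all closed points above it. In particular condition (ii) of the
conjecture fails if `R` is of finite type over `ℤ`.

(3) The hypothesis on `t` in (2) holds if the exponents at some point number `i₁` are congruent to
`c i₁` or to `d`, where `2 (d - c i₁)` is not an integer, at least `m` of them to `d`, the classes of
the exponents at the points `i ≠ i₁` other than that of `c i` have at most `e i` elements, and
`m > ∑_{i ≠ i₁} e i`. (Example: rank `r = j + m`, `m ≥ 3`, exponents `c₀` (`j` times), `d₀` (`m` times)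
at `0`, `c₁` (`m` times) and `j` different ones at `1`, `r` different ones at infinity.) -/
theorem result {r : ℕ} (lam : Fin 3 → Fin r → ℚ) (N : ℕ) (hN : 0 < N)
    (hNlam : ∀ i l, ∃ z : ℤ, (N : ℚ) * lam i l = z) :
    (∀ (a : ℤ) (y : Fin 3 → ℝ), 0 < ∑ i, y i →
      (∑ i, ∑ l, Int.fract ((a : ℝ) * (lam i l : ℝ) - y i) < (r : ℝ) * (1 - ∑ i, y i) ∨
        ∑ i, ∑ l, Int.fract (-((a : ℝ) * (lam i l : ℝ)) - y i) < (r : ℝ) * (1 - ∑ i, y i)) →
      NonzeroForAll.{u} lam N a) ∧
    (∀ c : Fin 3 → ℚ, (∃ z : ℤ, ∑ i, c i = z) → (∀ i, ∃ z : ℤ, (N : ℚ) * c i = z) →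
      ∀ i₀, (∀ l, (lam i₀ l - c i₀).den ≠ 1) → W lam c ≤ 2 * r →
      ∀ M : ℕ, Rough r M → (∀ i l, ∃ z : ℤ, (M : ℚ) * (lam i l - c i) = z) →
      (∃ t : ℚ, mult lam c t ≠ mult lam c (-t)) →
      (∃ a : ℤ, IsCoprime a (N : ℤ) ∧ NonzeroForAll.{u} lam N a) ∧
      ∀ (R : Type v) [CommRing R] [IsDomain R] [CharZero R] [Algebra.FiniteType ℤ R]
        (b b' : Matrix (Fin r) (Fin r) R), HasExponents b (lam 0) → HasExponents b' (lam 1) →
        HasExponents (b + b') (fun l => -lam 2 l) → ¬ CondII ![0, 1] ![b, b']) ∧
    (∀ (c : Fin 3 → ℚ) (i₁ : Fin 3) (d : ℚ) (m : ℕ) (e : Fin 3 → ℕ),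
      (∀ l, (lam i₁ l - c i₁).den = 1 ∨ (lam i₁ l - d).den = 1) → (2 * (d - c i₁)).den ≠ 1 →
      m ≤ (univ.filter fun l => (lam i₁ l - d).den = 1).card →
      (∀ i, i ≠ i₁ → ∀ q : ℚ, (q - c i).den ≠ 1 →
        (univ.filter fun l => (lam i l - q).den = 1).card ≤ e i) →
      ∑ i ∈ univ.erase i₁, e i < m → ∃ t : ℚ, mult lam c t ≠ mult lam c (-t)) := by
  classical
  choose E hE using hNlam
  have hNq : (0 : ℚ) < N := by exact_mod_cast hN
  have hNr : (N : ℝ) ≠ 0 := by exact_mod_cast hN.ne'
  have hl : ∀ i l, lam i l = (E i l : ℚ) / N := fun i l => by rw [← hE]; field_simp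
  have hlr : ∀ i l, (lam i l : ℝ) = (E i l : ℝ) / N := fun i l => by
    rw [hl]; push_cast; rfl
  refine ⟨fun a y hy hlt => ?_, fun c hc hNc i₀ hi₀ hW M hM hMd => ?_, fun c i₁ d m e k1 k2 k3 k4 k5 => ?_⟩
  · refine nonzero_of_not lam N hN E hE a fun hi => ?_
    rcases hlt with h | h
    · have h1 := Pool.Agent.X319.EF.real_ineq hN (fun i l => a * E i l) (fun x hx => (hi x hx).1) y hy
      refine absurd h (not_lt.2 (h1.trans (le_of_eq ?_)))
      refine sum_congr rfl fun i _ => sum_congr rfl fun l _ => ?_
      rw [hlr]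
      push_cast
      congr 2
      ring
    · have h1 := Pool.Agent.X319.EF.real_ineq hN (fun i l => -(a * E i l))
        (fun x hx => (hi x hx).2) y hy
      refine absurd h (not_lt.2 (h1.trans (le_of_eq ?_)))
      refine sum_congr rfl fun i _ => sum_congr rfl fun l _ => ?_
      rw [hlr]
      push_cast
      congr 2
      ring
  · rintro ⟨t, ht⟩
    obtain ⟨a, ha, hb⟩ := Pool.Agent.X319.EF.asym_ar lam N hN E hE c hNc hc i₀ hi₀ hW M hMd hM t
      (fun h => ht (by
        unfold mult
        simp only [sub_neg_eq_add]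
        exact h))
    refine ⟨⟨a, ha, nonzero_of_not lam N hN E hE a hb⟩, ?_⟩
    intro R _ _ _ _ b b' h1 h2 h3
    have h4 := nonzero_of_not.{v} lam N hN E hE a hb
    obtain ⟨P₀, hP₀⟩ := exists_nat_gt (2 * (N : ℚ) * ∑ i, ∑ l, |lam i l|)
    exact not_condII_of (![0, 1] : Fin 2 → R) ![b, b'] N hN a ha
      ⟨1, one_ne_zero, P₀, fun p hp hpP hap 𝔪 _ hpm _ =>
        h4 R b b' h1 h2 h3 p hp (hP₀.trans (by exact_mod_cast hpP)) hap 𝔪 hpm⟩
  · refine ⟨d - c i₁, fun h => ?_⟩
    refine Pool.Agent.X319.EF.mult_ne_ar lam c i₁ d m e k3 k1 k2 k4 k5 ?_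
    unfold mult at h
    simp only [sub_neg_eq_add] at h
    exact h

end Pool.Agent.Results.MP_5e5ff1_ag.EffectivePrimes
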