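import Pool.Agent.X98.FL.SysFin

set_option autoImplicit false

open Polynomial NumberField Pool.Agent.X98.SY Pool.Agent.X98.FL

universe u v

namespace Pool.Agent.Results.MP_5e5ff1_ag.InvariantSubspaces

/-- Let `K` be a number field, let `b`, `c` be `r × r` matrices over its ring of integers, `n ≥ 1`,
and let `(⋆)` be the system `f' = ((b / n) / t + (c / n) / (t - 1)) f`. Suppose that the
`p`-curvatures of the reductions of `(⋆)` vanish for all but finitely many maximal ideals of `𝓞 K`,
or only that the eigenvalues of `b`, `c` and `b + c` are rational.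

There is a constant `C` such that for every field `k` of characteristic `p` and every ring
homomorphism `φ : 𝓞 K → k` (for instance the reduction modulo one maximal ideal): if the connection
`d / dt - ((φ(b) / n) / t + (φ(c) / n) / (t - 1))` has a stable subspace of `k(t) ^ r` of dimension
`s` with a basis `G` whose entries have heights `h` with `C (h + 1) < p`, then the connection of
`(⋆)` has a stable subspace of dimension `s` over the rational functions over an algebraic closure
of `K`. So if `(⋆)` is irreducible, then for every `p` every stable subspace of `(⋆)` modulo `p`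
of dimension `0 < s < r` has height at least `p / C - 1`. -/
theorem result {K : Type u} [Field K] [NumberField K] {r n : ℕ} (hn : 0 < n)
    (b c : Matrix (Fin r) (Fin r) (𝓞 K))
    (h : {P : Ideal (𝓞 K) | P.IsMaximal ∧ ¬ PCurvZero n b c P}.Finite ∨
      RatEigs b ∧ RatEigs c ∧ RatEigs (b + c)) :
    ∃ C : ℕ, ∀ (p : ℕ) (k : Type v) [Field k] [CharP k p] (φ : 𝓞 K →+* k) (s : ℕ)
      (G : Fin s → Fin r → RatFunc k), LinearIndependent (RatFunc k) G →
      Stable (Matrix.of fun i l => φ (b i l) / n) (Matrix.of fun i l => φ (c i l) / n) G →
      (∀ j i, C * (ht (G j i) + 1) < p) →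
      ∃ G' : Fin s → Fin r → RatFunc (AlgebraicClosure K),
        LinearIndependent (RatFunc (AlgebraicClosure K)) G' ∧
        Stable (Matrix.of fun i l => algebraMap K (AlgebraicClosure K) (b i l / n))
          (Matrix.of fun i l => algebraMap K (AlgebraicClosure K) (c i l / n)) G' := by
  have h' : RatEigs b ∧ RatEigs c ∧ RatEigs (b + c) := h.elim ratEigs_of_cond id
  exact stable_lift.{u, v} hn b c h'.1 h'.2.1 h'.2.2

end Pool.Agent.Results.MP_5e5ff1_ag.InvariantSubspaces
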