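import Pool.Agent.X98.SY.RadFin

set_option autoImplicit false

open Polynomial NumberField Pool.Agent.X98.SY

universe u v

namespace Pool.Agent.Results.MP_5e5ff1_ag.RadicalSolutionsOnePrime

/-- Let `K` be a number field, let `b`, `c` be `r × r` matrices over its ring of integers, `n ≥ 1`,
and let `(⋆)` be the system `f' = ((b / n) / t + (c / n) / (t - 1)) f`. Suppose that the
`p`-curvatures of the reductions of `(⋆)` vanish for all but finitely many maximal ideals of `𝓞 K`,
or only that the eigenvalues of `b`, `c` and `b + c` are rational.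

There is a constant `C` such that for every field `k` of characteristic `p` and every ring
homomorphism `φ : 𝓞 K → k` (for instance the reduction modulo one maximal ideal): if the system with
the matrices `φ (b) / n`, `φ (c) / n` has `s` solutions, linearly independent over `k(t)`, of the
form `t ^ e₀ (t - 1) ^ e₁ g` with arbitrary integers `e₀`, `e₁` and polynomial vectors `g` whose
entries have degrees `d` with `C (d + 1) < p`, then `(⋆)` has `s` linearly independent algebraic
solutions, whose entries are roots of rational functions. In particular, if `s = r`, it has a full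
set of algebraic solutions. -/
theorem result {K : Type u} [Field K] [NumberField K] {r n : ℕ} (hn : 0 < n)
    (b c : Matrix (Fin r) (Fin r) (𝓞 K))
    (h : {P : Ideal (𝓞 K) | P.IsMaximal ∧ ¬ PCurvZero n b c P}.Finite ∨
      RatEigs b ∧ RatEigs c ∧ RatEigs (b + c)) :
    ∃ C : ℕ, ∀ (p : ℕ) (k : Type v) [Field k] [CharP k p] (φ : 𝓞 K →+* k) (s : ℕ)
      (y : Fin s → Fin r → RatFunc k) (e₀ e₁ : Fin s → ℤ) (g : Fin s → Fin r → k[X]),
      LinearIndependent (RatFunc k) y →
      (∀ j, Sys (Matrix.of fun i l => φ (b i l) / n) (Matrix.of fun i l => φ (c i l) / n) (y j)) →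
      (∀ j i, y j i = RatFunc.X ^ e₀ j * (RatFunc.X - 1) ^ e₁ j *
        algebraMap k[X] (RatFunc k) (g j i)) →
      (∀ j i, C * ((g j i).natDegree + 1) < p) →
      ∀ σ : K →+* ℂ, AlgSols n b c σ s ∧ (s = r → FullAlgSols n b c σ) := by
  have h' : RatEigs b ∧ RatEigs c ∧ RatEigs (b + c) := h.elim ratEigs_of_cond id
  obtain ⟨C, hC⟩ := radical_solutions.{u, v} hn b c h'.1 h'.2.1 h'.2.2
  refine ⟨C, fun p k _ _ φ s y e₀ e₁ g h1 h2 h3 h4 σ => ?_⟩
  have h5 := hC p k φ s y e₀ e₁ g h1 h2 h3 h4 σ
  refine ⟨h5, ?_⟩
  rintro rfl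
  exact h5.full

end Pool.Agent.Results.MP_5e5ff1_ag.RadicalSolutionsOnePrime
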