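import Pool.Agent.X98.SY.Fin

set_option autoImplicit false

open Polynomial NumberField Pool.Agent.X98.SY

universe u v

namespace Pool.Agent.Results.MP_5e5ff1_ag.SmallSolutionsOnePrime

/-- Let `K` be a number field, let `b`, `c` be `r × r` matrices over its ring of integers, `n ≥ 1`,
and consider the system `(⋆)`: `f' = ((b / n) / t + (c / n) / (t - 1)) f`.

There are constants `C` and `D ≤ max 1 (r [K : ℚ])`, with `D = 1` if the `p`-curvatures of the
reductions of `(⋆)` vanish for all but finitely many maximal ideals of `𝓞 K`, such that for every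
field `k` of characteristic `p` and every ring homomorphism `φ : 𝓞 K → k` (for instance the
reduction modulo a maximal ideal): if the system with the matrices `φ (b) / n`, `φ (c) / n` has `s`
solutions in `k(t) ^ r`, linearly independent over `k`, whose entries have heights `h` with
`C (h + 1) ^ D < p`, then `(⋆)` has `s` solutions in `K(t) ^ r`, linearly independent over `K(t)`. -/
theorem result {K : Type u} [Field K] [NumberField K] {r n : ℕ} (hn : 0 < n)
    (b c : Matrix (Fin r) (Fin r) (𝓞 K)) :
    ∃ C D : ℕ, D ≤ max 1 (r * Module.finrank ℚ K) ∧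
      ({P : Ideal (𝓞 K) | P.IsMaximal ∧ ¬ PCurvZero n b c P}.Finite → D = 1) ∧
      ∀ (p : ℕ) (k : Type v) [Field k] [CharP k p] (φ : 𝓞 K →+* k) (s : ℕ)
        (y : Fin s → Fin r → RatFunc k), LinearIndependent k y →
        (∀ j, Sys (Matrix.of fun i l => φ (b i l) / n) (Matrix.of fun i l => φ (c i l) / n)
          (y j)) →
        (∀ j i, C * (ht (y j i) + 1) ^ D < p) →
          ∃ z : Fin s → Fin r → RatFunc K, LinearIndependent (RatFunc K) z ∧
            ∀ j, Sys (Matrix.of fun i l => algebraMap (𝓞 K) K (b i l) / n)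
              (Matrix.of fun i l => algebraMap (𝓞 K) K (c i l) / n) (z j) := by
  classical
  by_cases hcond : {P : Ideal (𝓞 K) | P.IsMaximal ∧ ¬ PCurvZero n b c P}.Finite
  · let σ : K →+* AlgebraicClosure ℚ :=
      (IsAlgClosed.lift : K →ₐ[ℚ] AlgebraicClosure ℚ).toRingHom
    obtain ⟨C, hC⟩ := main.{u, v} hn b c 1 (fun _ => one_ne_zero)
      (eig_of_rat.{u, v} b σ fun β => eig_rational hcond b (Or.inl rfl) σ β)
      (eig_of_rat.{u, v} c σ fun β => eig_rational hcond c (Or.inr (Or.inl rfl)) σ β)
      (eig_of_rat.{u, v} (b + c) σ fun β => eig_rational hcond (b + c) (Or.inr (Or.inr rfl)) σ β)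
    exact ⟨C, 1, le_max_left _ _, fun _ => rfl, fun p k _ _ φ s y h1 h2 h3 => hC p k φ s y h1 h2 h3⟩
  · have h : ∀ m : Matrix (Fin r) (Fin r) (𝓞 K), Eig.{u, v} m (r * Module.finrank ℚ K) := by
      intro m
      obtain ⟨C, hC⟩ := eig_small.{u, v} m
      exact ⟨C, fun y p k _ _ φ w => hC y p k φ w⟩
    obtain ⟨C, hC⟩ := main.{u, v} hn b c _ (fun hr => (Nat.mul_pos hr Module.finrank_pos).ne')
      (h b) (h c) (h (b + c))
    exact ⟨C, r * Module.finrank ℚ K, le_max_right _ _, fun h => absurd h hcond,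
      fun p k _ _ φ s y h1 h2 h3 => hC p k φ s y h1 h2 h3⟩

end Pool.Agent.Results.MP_5e5ff1_ag.SmallSolutionsOnePrime
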